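import Mathlib

-- part Pool.Agent.Lib.MP_150066_nt.Luc
section

/-! Lucas sequences attached to `u + √(u² + 1)` and their Jacobi symbols. -/

set_option autoImplicit false

namespace Pool.Agent.Lib.MP_150066_nt

open NumberTheorySymbols

/-- the coordinates of `(u + √(u² + 1)) ^ n` -/
def AU (u : ℕ) : ℕ → ℕ × ℕ
  | 0 => (1, 0)
  | n + 1 => (u * (AU u n).1 + (u ^ 2 + 1) * (AU u n).2, (AU u n).1 + u * (AU u n).2)

def A (u n : ℕ) : ℕ := (AU u n).1

def U (u n : ℕ) : ℕ := (AU u n).2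

lemma A_succ (u n : ℕ) : A u (n + 1) = u * A u n + (u ^ 2 + 1) * U u n := rfl

lemma U_succ (u n : ℕ) : U u (n + 1) = A u n + u * U u n := rfl

lemma pow_eq {y v : ℤ} {u : ℕ} (h : (u : ℤ) ^ 2 + 1 = y * v ^ 2) (n : ℕ) :
    (⟨u, v⟩ : ℤ√y) ^ n = ⟨A u n, v * U u n⟩ := by
  induction n with
  | zero => ext <;> simp [A, U, AU]
  | succ n ih =>
    rw [pow_succ, ih, A_succ, U_succ]
    ext
    · simp only [Zsqrtd.re_mul]
      push_cast
      linear_combination -(U u n : ℤ) * h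
    · simp only [Zsqrtd.im_mul]
      push_cast
      ring

lemma add_eq (u a b : ℕ) : A u (a + b) = A u a * A u b + (u ^ 2 + 1) * U u a * U u b ∧
    U u (a + b) = A u a * U u b + U u a * A u b := by
  induction b with
  | zero => simp [A, U, AU]
  | succ b ih =>
    rw [← add_assoc, A_succ, U_succ, A_succ, U_succ, ih.1, ih.2]
    constructor <;> ring

lemma norm_eq (u n : ℕ) : (A u n : ℤ) ^ 2 - (u ^ 2 + 1) * (U u n : ℤ) ^ 2 = (-1) ^ n := by
  induction n with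
  | zero => simp [A, U, AU]
  | succ n ih =>
    rw [A_succ, U_succ, pow_succ (-1 : ℤ) n, ← ih]
    push_cast
    ring

lemma parity (w j : ℕ) : ∃ s t, A (2 * w) (2 * j) = 4 * s + 1 ∧ U (2 * w) (2 * j) = 4 * t := by
  induction j with
  | zero => exact ⟨0, 0, rfl, rfl⟩
  | succ j ih =>
    obtain ⟨s, t, hs, ht⟩ := ih
    obtain ⟨a2, u2⟩ := add_eq (2 * w) (2 * j) 2
    have b1 : A (2 * w) 2 = 8 * w ^ 2 + 1 := by simp [A, AU]; ring
    have b2 : U (2 * w) 2 = 4 * w := by simp [U, AU]; ring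
    rw [b1, b2, hs, ht] at a2 u2
    refine ⟨s * (8 * w ^ 2 + 1) + 2 * w ^ 2 + ((2 * w) ^ 2 + 1) * t * (4 * w),
      (4 * s + 1) * w + t * (8 * w ^ 2 + 1), ?_, ?_⟩
    · rw [mul_add, mul_one, a2]; ring
    · rw [mul_add, mul_one, u2]; ring

lemma U_mod_four {u : ℕ} (hu : Even u) {n : ℕ} (hn : Odd n) : U u n % 4 = 1 := by
  obtain ⟨j, rfl⟩ := hn
  obtain ⟨w, rfl⟩ := hu.two_dvd
  obtain ⟨s, t, hs, ht⟩ := parity w j
  rw [U_succ, hs, ht]
  have : 4 * s + 1 + 2 * w * (4 * t) = 4 * (s + 2 * w * t) + 1 := by ring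
  omega

/-- `U (n + 2 m) ≡ - U n` modulo `U m` for odd `m` -/
lemma U_add_two_mul (u n : ℕ) {m : ℕ} (hm : Odd m) :
    (U u m : ℤ) ∣ U u (n + 2 * m) + U u n := by
  have h1 := (add_eq u n (m + m)).2
  obtain ⟨h2, h3⟩ := add_eq u m m
  have h4 := norm_eq u m
  rw [hm.neg_one_pow] at h4
  rw [two_mul, h1, h2, h3]
  push_cast
  refine ⟨A u n * (2 * A u m) + 2 * (u ^ 2 + 1) * U u n * U u m, ?_⟩
  linear_combination (U u n : ℤ) * h4

/-- `U n ≡ - U n'` modulo `U m` if `n + n' = 2 m`, all odd -/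
lemma U_refl (u : ℕ) {n n' m : ℕ} (hn : Odd n) (hm : Odd m) (h : n + n' = 2 * m) :
    (U u m : ℤ) ∣ U u n + U u n' := by
  obtain ⟨h1, h2⟩ := add_eq u n n'
  obtain ⟨h3, h4⟩ := add_eq u m m
  rw [h, two_mul] at h1 h2
  have h5 := norm_eq u m
  have h6 := norm_eq u n
  rw [hm.neg_one_pow] at h5
  rw [hn.neg_one_pow] at h6
  have e1 : (A u n : ℤ) * A u n' + (u ^ 2 + 1) * U u n * U u n' =
      A u m * A u m + (u ^ 2 + 1) * U u m * U u m := by exact_mod_cast h1.symm.trans h3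
  have e2 : (A u n : ℤ) * U u n' + U u n * A u n' = A u m * U u m + U u m * A u m := by
    exact_mod_cast h2.symm.trans h4
  refine ⟨2 * (u ^ 2 + 1) * U u n * U u m - 2 * A u n * A u m, ?_⟩
  linear_combination (U u n : ℤ) * e1 - (A u n : ℤ) * e2 + (U u n : ℤ) * h5 + (U u n' : ℤ) * h6

lemma jac_of_dvd {a b : ℤ} {m : ℕ} (hm : m % 4 = 1) (h : (m : ℤ) ∣ a + b) :
    J(a | m) = J(b | m) := by
  have h1 : J(a | m) = J(-b | m) :=
    jacobiSym.mod_left' (Int.ModEq.symm (Int.modEq_iff_dvd.2 (by rwa [sub_neg_eq_add])))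
  rw [h1, jacobiSym.neg _ (Nat.odd_iff.2 (by omega)), ZMod.χ₄_nat_one_mod_four hm, one_mul]

/-- the Jacobi symbol of two terms with odd coprime indices is one -/
theorem jac_U {u : ℕ} (hu : Even u) : ∀ (N n m : ℕ), n + m ≤ N → Odd n → Odd m → n.Coprime m →
    J(U u n | U u m) = 1 := by
  intro N
  induction N with
  | zero => intro n m h hn; obtain ⟨j, rfl⟩ := hn; omega
  | succ N ih =>
    have key : ∀ n m : ℕ, n + m ≤ N + 1 → Odd n → Odd m → n.Coprime m → m < n →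
        J(U u n | U u m) = 1 := by
      intro n m h hn hm hc hlt
      have hm4 := U_mod_four hu hm
      have hm0 : 0 < m := hm.pos
      rcases le_or_gt (2 * m) n with h2 | h2
      · obtain ⟨r, rfl⟩ := Nat.exists_eq_add_of_le' h2
        have hr : Odd r := by
          rcases Nat.even_or_odd r with h3 | h3
          · exact absurd hn (Nat.not_odd_iff_even.2 (h3.add (even_two_mul m)))
          · exact h3
        rw [jac_of_dvd hm4 (U_add_two_mul u r hm)]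
        exact ih r m (by omega) hr hm (by simpa using hc)
      · obtain ⟨r, hr⟩ := Nat.exists_eq_add_of_le h2.le
        have hr' : Odd r := by
          rcases Nat.even_or_odd r with h3 | h3
          · exact absurd (hr ▸ hn.add_even h3) (Nat.not_odd_iff_even.2 (even_two_mul m))
          · exact h3
        rw [jac_of_dvd hm4 (U_refl u hn hm hr.symm)]
        refine ih r m (by omega) hr' hm ?_
        refine Nat.coprime_of_dvd fun p hp h5 h6 => ?_
        have h7 : p ∣ n := (Nat.dvd_add_left h5).1 (hr ▸ Dvd.dvd.mul_left h6 2)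
        exact hp.one_lt.ne' (Nat.eq_one_of_dvd_coprimes hc h7 h6)
    intro n m h hn hm hc
    rcases lt_trichotomy m n with h1 | h1 | h1
    · exact key n m h hn hm hc h1
    · subst h1
      have : m = 1 := by simpa using hc
      subst this
      simp [U, AU]
    · rw [jacobiSym.quadratic_reciprocity_one_mod_four (U_mod_four hu hn)
        (Nat.odd_iff.2 (by have := U_mod_four hu hm; omega))]
      exact key m n (by omega) hm hn hc.symm h1

/-- expansion modulo the square of the discriminant -/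
lemma expand (u n : ℕ) :
    ((u : ℤ) ^ 2 + 1) ^ 2 ∣
      (u : ℤ) ^ 3 * A u n - u ^ (n + 1) * (u ^ 2 + n.choose 2 * (u ^ 2 + 1)) ∧
    ((u : ℤ) ^ 2 + 1) ^ 2 ∣
      (u : ℤ) ^ 3 * U u n - u ^ n * (n * u ^ 2 + n.choose 3 * (u ^ 2 + 1)) := by
  induction n with
  | zero => simp [A, U, AU, ← pow_succ']
  | succ n ih =>
    obtain ⟨⟨a, ha⟩, ⟨b, hb⟩⟩ := ih
    rw [A_succ, U_succ, Nat.choose_succ_succ' n 1, Nat.choose_succ_succ' n 2, Nat.choose_one_right]
    push_cast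
    constructor
    · exact ⟨u * a + (u ^ 2 + 1) * b + u ^ n * n.choose 3, by
        linear_combination (u : ℤ) * ha + ((u : ℤ) ^ 2 + 1) * hb⟩
    · exact ⟨a + u * b, by linear_combination ha + (u : ℤ) * hb⟩

lemma U_cong (u n : ℕ) : ((u : ℤ) ^ 2 + 1) ∣ (u : ℤ) ^ 3 * U u n - n * u ^ (n + 2) := by
  obtain ⟨b, hb⟩ := (expand u n).2
  exact ⟨(u ^ 2 + 1) * b + u ^ n * n.choose 3, by linear_combination hb⟩

lemma not_dvd_u {u p : ℕ} (hp : p.Prime) (hd : p ∣ u ^ 2 + 1) : ¬ p ∣ u := fun h =>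
  hp.one_lt.ne' (Nat.dvd_one.1 ((Nat.dvd_add_right (dvd_pow h two_ne_zero)).1 hd))

lemma dvd_index {u p n : ℕ} (hp : p.Prime) (hd : p ∣ u ^ 2 + 1) (h : p ∣ U u n) : p ∣ n := by
  have h1 : (p : ℤ) ∣ (u : ℤ) ^ 2 + 1 := by exact_mod_cast hd
  have h2 : (p : ℤ) ∣ U u n := by exact_mod_cast h
  have h3 : (p : ℤ) ∣ n * u ^ (n + 2) := by
    exact (dvd_sub (h2.mul_left ((u : ℤ) ^ 3)) (h1.trans (U_cong u n))).trans
      (Dvd.intro 1 (by ring))
  have h4 : p ∣ n * u ^ (n + 2) := by exact_mod_cast h3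
  exact ((Nat.Prime.dvd_mul hp).1 h4).resolve_right fun h5 =>
    not_dvd_u hp hd (hp.dvd_of_dvd_pow h5)

lemma five_le {u p : ℕ} (hu : Even u) (hp : p.Prime) (hd : p ∣ u ^ 2 + 1) : 5 ≤ p := by
  have h2 := hp.two_le
  by_contra h
  have h4 : p ≠ 4 := by rintro rfl; exact absurd hp (by norm_num)
  obtain rfl | rfl : p = 2 ∨ p = 3 := by omega
  · have : 2 ∣ u ^ 2 := dvd_pow hu.two_dvd two_ne_zero
    omega
  · have : u % 3 = 0 ∨ u % 3 = 1 ∨ u % 3 = 2 := by omega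
    rw [Nat.dvd_iff_mod_eq_zero, Nat.add_mod, Nat.pow_mod] at hd
    rcases this with h | h | h <;> simp [h] at hd

lemma dvd_U_not_sq {u p : ℕ} (hu : Even u) (hp : p.Prime) (hd : p ∣ u ^ 2 + 1) :
    p ∣ U u p ∧ ¬ p ^ 2 ∣ U u p := by
  have h1 : (p : ℤ) ∣ (u : ℤ) ^ 2 + 1 := by exact_mod_cast hd
  have h5 := five_le hu hp hd
  have h2 : (p : ℤ) ∣ p.choose 3 := by exact_mod_cast hp.dvd_choose_self (by omega) (by omega)
  have h3 : (p : ℤ) ^ 2 ∣ (u : ℤ) ^ 3 * U u p - p * u ^ (p + 2) := by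
    have h4 := (pow_dvd_pow_of_dvd h1 2).trans (expand u p).2
    have h6 : (p : ℤ) ^ 2 ∣ u ^ p * (p.choose 3 * (u ^ 2 + 1)) := by
      rw [sq (p : ℤ)]
      exact (mul_dvd_mul h2 h1).mul_left _
    exact (dvd_add h4 h6).trans (Dvd.intro 1 (by ring))
  constructor
  · have h4 : (p : ℤ) ∣ u ^ 3 * U u p := by
      simpa using dvd_add ((dvd_pow_self (p : ℤ) two_ne_zero).trans h3)
        (dvd_mul_right (p : ℤ) (u ^ (p + 2)))
    have h6 : p ∣ u ^ 3 * U u p := by exact_mod_cast h4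
    exact ((Nat.Prime.dvd_mul hp).1 h6).resolve_left fun h7 =>
      not_dvd_u hp hd (hp.dvd_of_dvd_pow h7)
  · intro h
    have h4 : (p : ℤ) ^ 2 ∣ U u p := by exact_mod_cast h
    have h6 : (p : ℤ) ^ 2 ∣ p * u ^ (p + 2) := by
      exact (dvd_sub (h4.mul_left ((u : ℤ) ^ 3)) h3).trans (Dvd.intro 1 (by ring))
    rw [sq] at h6
    have h7 : (p : ℤ) ∣ u ^ (p + 2) :=
      (mul_dvd_mul_iff_left (by exact_mod_cast hp.ne_zero)).1 h6
    have h8 : p ∣ u ^ (p + 2) := by exact_mod_cast h7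
    exact not_dvd_u hp hd (hp.dvd_of_dvd_pow h8)

/-- for a prime `p` dividing the discriminant, `U p` is not `p` times a square -/
lemma U_ne_mul_sq {u p : ℕ} (hu : Even u) (hp : p.Prime) (hd : p ∣ u ^ 2 + 1) (t : ℕ) :
    U u p ≠ t ^ 2 * p := by
  intro h
  have h5 := five_le hu hp hd
  have := Fact.mk hp
  have hp2 : Odd p := hp.odd_of_ne_two (by omega)
  obtain ⟨r, hr⟩ := FiniteField.exists_nonsquare (F := ZMod p)
    (by rw [ZMod.ringChar_zmod_n]; omega)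
  obtain ⟨m, hm, hmr⟩ : ∃ m : ℕ, Odd m ∧ (m : ZMod p) = r := by
    rcases Nat.even_or_odd r.val with h1 | h1
    · exact ⟨r.val + p, h1.add_odd hp2, by simp⟩
    · exact ⟨r.val, h1, by simp⟩
  have h1 : J(m | p) = -1 :=
    ZMod.nonsquare_iff_jacobiSym_eq_neg_one.2 (by rwa [Int.cast_natCast, hmr])
  have hc : p.Coprime m := (Nat.Prime.coprime_iff_not_dvd hp).2 fun h2 => hr (by
    rw [← hmr, (ZMod.natCast_eq_zero_iff m p).2 h2]; exact IsSquare.zero)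
  have h2 := jac_U hu _ p m le_rfl hp2 hm hc
  rw [h] at h2
  push_cast at h2
  rw [jacobiSym.mul_left, jacobiSym.pow_left,
    ← jacobiSym.quadratic_reciprocity_one_mod_four (U_mod_four hu hm) hp2] at h2
  have h3 : J(u ^ 3 * U u m | p) = J(m * u ^ (m + 2) | p) :=
    jacobiSym.mod_left' (Int.ModEq.symm (Int.modEq_iff_dvd.2
      ((show (p : ℤ) ∣ (u : ℤ) ^ 2 + 1 by exact_mod_cast hd).trans (U_cong u m))))
  obtain ⟨j, rfl⟩ := hm
  have hg : (u : ℤ).gcd p = 1 := by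
    simpa using ((Nat.Prime.coprime_iff_not_dvd hp).2 (not_dvd_u hp hd)).symm
  have h4 := jacobiSym.sq_one hg
  rw [jacobiSym.mul_left, jacobiSym.mul_left, jacobiSym.pow_left, jacobiSym.pow_left, h1,
    show 2 * j + 1 + 2 = 2 * j + 3 by ring, pow_add, pow_mul, h4, one_pow, one_mul] at h3
  have h6 : J(u | p) ^ 3 ≠ 0 := pow_ne_zero _ (jacobiSym.ne_zero hg)
  have h7 : J(U u (2 * j + 1) | p) = -1 := mul_left_cancel₀ h6 (by rw [h3]; ring)
  rw [h7] at h2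
  nlinarith [sq_nonneg J(t | U u (2 * j + 1))]

end Pool.Agent.Lib.MP_150066_nt
end

-- part Pool.Agent.Lib.MP_150066_nt.Main
section

/-! The negative Pell equation and the equation `b² + 1 = y³ a⁴`. -/

set_option autoImplicit false

namespace Pool.Agent.Lib.MP_150066_nt

lemma fst_le {y X Y X' Y' : ℤ} (hy : 0 < y) (h : X ^ 2 + 1 = y * Y ^ 2) (h' : X' ^ 2 + 1 = y * Y' ^ 2)
    (hX' : 0 ≤ X') (hY : 0 ≤ Y) (hle : Y ≤ Y') : X ≤ X' := by
  have h1 : Y ^ 2 ≤ Y' ^ 2 := pow_le_pow_left₀ hY hle 2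
  have h2 : X ^ 2 ≤ X' ^ 2 := by nlinarith
  exact le_trans (le_abs_self X) (abs_le_of_sq_le_sq' h2 hX' |> abs_le.2)

/-- one step of descent along the least solution -/
lemma descent {y u v X Y : ℤ} (hy : 0 < y) (hu : 0 < u) (hv : 0 < v) (h : u ^ 2 + 1 = y * v ^ 2)
    (hmin : ∀ X Y : ℤ, 0 < X → 0 < Y → X ^ 2 + 1 = y * Y ^ 2 → v ≤ Y)
    (hX : 0 < X) (hY : v < Y) (h' : X ^ 2 + 1 = y * Y ^ 2) :
    ∃ X' Y' : ℤ, 0 < X' ∧ 0 < Y' ∧ Y' < Y ∧ X' ^ 2 + 1 = y * Y' ^ 2 ∧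
      (⟨X, Y⟩ : ℤ√y) = ⟨X', Y'⟩ * ⟨u, v⟩ ^ 2 := by
  obtain ⟨X', hX'⟩ : ∃ X', X' = X * (2 * u ^ 2 + 1) - 2 * y * u * v * Y := ⟨_, rfl⟩
  obtain ⟨Y', hY'⟩ : ∃ Y', Y' = Y * (2 * u ^ 2 + 1) - 2 * u * v * X := ⟨_, rfl⟩
  have hn : X' ^ 2 + 1 = y * Y' ^ 2 := by
    rw [hX', hY']
    linear_combination ((2 * u ^ 2 + 1) ^ 2 - 4 * u ^ 2 * v ^ 2 * y) * h' - 4 * u ^ 2 * h
  have hs : (0 : ℝ) < √y := Real.sqrt_pos.2 (by exact_mod_cast hy)
  have hs2 : √(y : ℝ) ^ 2 = y := Real.sq_sqrt (by exact_mod_cast hy.le)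
  generalize √(y : ℝ) = s at hs hs2
  have hR : (u : ℝ) ^ 2 + 1 = y * v ^ 2 := by exact_mod_cast h
  have hnR : (X' : ℝ) ^ 2 + 1 = y * Y' ^ 2 := by exact_mod_cast hn
  have hu' : (1 : ℝ) ≤ u := by exact_mod_cast hu
  have hv' : (0 : ℝ) < v := by exact_mod_cast hv
  have huX : (u : ℝ) ≤ X := by exact_mod_cast fst_le hy h h' hX.le hv.le hY.le
  have hY2 : (v : ℝ) < Y := by exact_mod_cast hY
  have e1 : ((X' : ℝ) + Y' * s) * (u + v * s) ^ 2 = X + Y * s := by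
    rw [hX', hY']
    push_cast
    rw [← hs2] at hR ⊢
    linear_combination ((X + Y * s) * (2 * u ^ 2 - 1 + 2 * u * v * s)) * hR
  have e2 : ((X' : ℝ) + Y' * s) * (-X' + Y' * s) = 1 := by
    rw [← hs2] at hnR
    linear_combination -hnR
  have p1 : 1 < (u : ℝ) + v * s := by nlinarith [mul_pos hv' hs]
  have p2 : (u : ℝ) + v * s < X + Y * s := by nlinarith
  have p3 : 0 < (X' : ℝ) + Y' * s := by
    by_contra h0
    have := mul_nonpos_of_nonpos_of_nonneg (not_lt.1 h0) (sq_nonneg ((u : ℝ) + v * s))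
    linarith
  have p4 : 0 < -(X' : ℝ) + Y' * s := by
    by_contra h0
    have := mul_nonpos_of_nonneg_of_nonpos p3.le (not_lt.1 h0)
    linarith
  have q1 : 0 < Y' := by
    have : (0 : ℝ) < Y' := by
      by_contra h0
      nlinarith [mul_nonpos_of_nonpos_of_nonneg (not_lt.1 h0) hs.le]
    exact_mod_cast this
  have q2 : 0 < X' := by
    rcases lt_trichotomy X' 0 with h0 | h0 | h0
    · have r1 := hmin (-X') Y' (by linarith) q1 (by rw [neg_sq]; exact hn)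
      have r2 : u ≤ -X' := fst_le hy h (by rw [neg_sq]; exact hn) (by linarith) hv.le r1
      have r3 : (v : ℝ) ≤ Y' := by exact_mod_cast r1
      have r4 : (u : ℝ) ≤ -X' := by exact_mod_cast r2
      have r5 : (u : ℝ) + v * s ≤ -X' + Y' * s := by nlinarith
      have r6 := mul_le_mul_of_nonneg_left r5 p3.le
      nlinarith [mul_le_mul_of_nonneg_right (r6.trans e2.le) (by linarith : 0 ≤ (u : ℝ) + v * s)]
    · rw [h0] at hn
      have r1 : y = 1 := Int.eq_one_of_mul_eq_one_right hy.le (by simpa using hn.symm)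
      rw [r1] at h
      have r2 : u < v := by nlinarith
      nlinarith
    · exact h0
  refine ⟨X', Y', q2, q1, ?_, hn, ?_⟩
  · by_contra h0
    have r1 := fst_le hy h' hn q2.le (by linarith) (not_lt.1 h0)
    have r2 : (X : ℝ) ≤ X' := by exact_mod_cast r1
    have r3 : (Y : ℝ) ≤ Y' := by exact_mod_cast not_lt.1 h0
    have r4 : (X : ℝ) + Y * s ≤ X' + Y' * s := by nlinarith
    have r5 : 1 < ((u : ℝ) + v * s) ^ 2 := by nlinarith
    nlinarith
  · rw [hX', hY', sq (⟨u, v⟩ : ℤ√y)]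
    ext
    · simp only [Zsqrtd.re_mul, Zsqrtd.im_mul]
      linear_combination (-(X * (2 * u ^ 2 - 1) + 2 * y * u * v * Y)) * h
    · simp only [Zsqrtd.re_mul, Zsqrtd.im_mul]
      linear_combination (-(Y * (2 * u ^ 2 - 1) + 2 * u * v * X)) * h

/-- every positive solution is an odd power of the least one -/
lemma exists_pow {y u v : ℤ} (hy : 0 < y) (hu : 0 < u) (hv : 0 < v) (h : u ^ 2 + 1 = y * v ^ 2)
    (hmin : ∀ X Y : ℤ, 0 < X → 0 < Y → X ^ 2 + 1 = y * Y ^ 2 → v ≤ Y) :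
    ∀ (N : ℕ) (X Y : ℤ), Y ≤ N → 0 < X → 0 < Y → X ^ 2 + 1 = y * Y ^ 2 →
      ∃ k, Odd k ∧ (⟨X, Y⟩ : ℤ√y) = ⟨u, v⟩ ^ k := by
  intro N
  induction N with
  | zero => intro X Y h1 _ h2; simp at h1; omega
  | succ N ih =>
    intro X Y h1 hX hY h'
    rcases (hmin X Y hX hY h').eq_or_lt with h2 | h2
    · subst h2
      have h3 : X = u := le_antisymm (fst_le hy h' h hu.le hv.le le_rfl)
        (fst_le hy h h' hX.le hv.le le_rfl)
      exact ⟨1, odd_one, by rw [h3, pow_one]⟩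
    · obtain ⟨X', Y', a1, a2, a3, a4, a5⟩ := descent hy hu hv h hmin hX h2 h'
      obtain ⟨k, hk, e⟩ := ih X' Y' (by push_cast at h1; omega) a1 a2 a4
      exact ⟨k + 2, hk.add_even even_two, by rw [a5, e, pow_add]⟩

/-- the squarefree part of `U k` -/
lemma sqfree_part {y u v a k : ℕ} (hv : 0 < v) (hU : 0 < U u k) (h : u ^ 2 + 1 = y * v ^ 2)
    (hk : v * U u k = y * a ^ 2) :
    ∃ s t, U u k = t ^ 2 * s ∧ Squarefree s ∧ ∀ p, p.Prime → p ∣ s → p ∣ u ^ 2 + 1 ∧ p ∣ k := by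
  obtain ⟨s, t, hs, ht, e, hsq⟩ := Nat.sq_mul_squarefree_of_pos hU
  refine ⟨s, t, e.symm, hsq, fun p hp hps => ?_⟩
  have hd : p ∣ u ^ 2 + 1 := by
    by_contra hn
    rw [h] at hn
    have hy : ¬ p ∣ y := fun h1 => hn (h1.mul_right _)
    have hv' : ¬ p ∣ v := fun h1 => hn ((dvd_pow h1 two_ne_zero).mul_left _)
    have hy0 : y ≠ 0 := by rintro rfl; simp at hy
    have ha0 : a ≠ 0 := by
      rintro rfl
      have := Nat.mul_pos hv hU
      simp at hk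
      omega
    have h1 := congrArg (fun n => n.factorization p) hk
    rw [← e] at h1
    simp only [Nat.factorization_mul hv.ne' (Nat.mul_pos (pow_pos ht 2) hs).ne',
      Nat.factorization_mul (pow_pos ht 2).ne' hs.ne', Nat.factorization_mul hy0 (pow_ne_zero 2 ha0),
      Nat.factorization_pow, Finsupp.add_apply, Finsupp.smul_apply, smul_eq_mul,
      Nat.factorization_eq_zero_of_not_dvd hy, Nat.factorization_eq_zero_of_not_dvd hv',
      Nat.factorization_eq_one_of_squarefree hsq hp hps] at h1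
    omega
  exact ⟨hd, dvd_index hp hd (e ▸ hps.mul_left _)⟩

lemma even_of {y u v a w : ℕ} (h : u ^ 2 + 1 = y * v ^ 2) (hy : Odd y) (ha : Odd a)
    (hk : v * w = y * a ^ 2) : Even u := by
  have h1 : Odd (v * w) := hk ▸ hy.mul ha.pow
  have h2 : Odd (u ^ 2 + 1) := h ▸ hy.mul (Nat.Odd.of_mul_left h1).pow
  have h3 : Even (u ^ 2) := by simpa [Nat.odd_add_one] using h2
  exact (Nat.even_pow.1 h3).1

lemma U_pos {u k : ℕ} (hu : Even u) (hk : Odd k) : 0 < U u k := by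
  have := U_mod_four hu hk
  omega

lemma not_prime_index {y u v a p : ℕ} (hv : 0 < v) (h : u ^ 2 + 1 = y * v ^ 2) (hu : Even u)
    (hp : p.Prime) (hd : p ∣ u ^ 2 + 1) : v * U u p ≠ y * a ^ 2 := by
  intro hk
  have h5 := five_le hu hp hd
  obtain ⟨s, t, e, hsq, hs⟩ := sqfree_part hv (U_pos hu (hp.odd_of_ne_two (by omega))) h hk
  have h1 : s ∣ p := by
    rw [← hsq.dvd_pow_iff_dvd (n := s.primeFactorsList.length + 1) (by omega)]
    have h0 : s = p ^ s.primeFactorsList.length :=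
      Nat.eq_prime_pow_of_unique_prime_dvd hsq.ne_zero fun hq hqs =>
        (Nat.prime_dvd_prime_iff_eq hq hp).1 (hs _ hq hqs).2
    rw [pow_succ, ← h0]
    exact dvd_mul_right _ _
  obtain ⟨h2, h3⟩ := dvd_U_not_sq hu hp hd
  rcases (Nat.dvd_prime hp).1 h1 with h4 | h4
  · rw [e, h4, mul_one] at h2 h3
    exact h3 (pow_dvd_pow_of_dvd (hp.dvd_of_dvd_pow h2) 2)
  · exact U_ne_mul_sq hu hp hd t (h4 ▸ e)

theorem key {y u v a k : ℕ} (hv : 0 < v) (h : u ^ 2 + 1 = y * v ^ 2) (hy : Odd y) (ha : Odd a)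
    (hk : Odd k) (e : v * U u k = y * a ^ 2) : ∃ c, v = y * c ^ 2 := by
  have hu := even_of h hy ha e
  have hZ : (u : ℤ) ^ 2 + 1 = y * (v : ℤ) ^ 2 := by exact_mod_cast h
  have h1 : ∀ p, p.Prime → p ∣ u ^ 2 + 1 → ¬ p ∣ k := by
    rintro p hp hd ⟨j, rfl⟩
    have hj : Odd j := Nat.Odd.of_mul_right hk
    have h2 : (A u j : ℤ) ^ 2 + 1 = y * ((v * U u j : ℕ) : ℤ) ^ 2 := by
      have := norm_eq u j
      rw [hj.neg_one_pow] at this
      push_cast
      linear_combination this + (U u j : ℤ) ^ 2 * hZ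
    have h3 : A u j ^ 2 + 1 = y * (v * U u j) ^ 2 := by exact_mod_cast h2
    have h4 := pow_eq h2 p
    push_cast at h4
    rw [← pow_eq hZ j, ← pow_mul, pow_eq hZ, mul_comm j p] at h4
    have h5 : v * U u (p * j) = v * U u j * U (A u j) p := by
      have h6 := congrArg Zsqrtd.im h4
      dsimp only at h6
      exact_mod_cast h6
    rw [h5] at e
    refine not_prime_index (Nat.mul_pos hv (U_pos hu hj)) h3 (even_of h3 hy ha e) hp ?_ e
    rw [h3, mul_pow, ← mul_assoc, ← h]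
    exact hd.mul_right _
  obtain ⟨s, t, e', -, hs⟩ := sqfree_part hv (U_pos hu hk) h e
  have h2 : s = 1 := Nat.eq_one_iff_not_exists_prime_dvd.2 fun p hp hps =>
    h1 p hp (hs p hp hps).1 (hs p hp hps).2
  rw [h2, mul_one] at e'
  have h3 : (t ^ 2).Coprime y := Nat.coprime_of_dvd fun p hp a1 a2 =>
    h1 p hp (h ▸ a2.mul_right _) (dvd_index hp (h ▸ a2.mul_right _) (e' ▸ a1))
  rw [e'] at e
  have h4 : t ^ 2 ∣ a ^ 2 := h3.dvd_of_dvd_mul_left (Dvd.intro_left v e)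
  obtain ⟨c, rfl⟩ := (Nat.pow_dvd_pow_iff two_ne_zero).1 h4
  have ht : 0 < t ^ 2 := e' ▸ U_pos hu hk
  exact ⟨c, Nat.eq_of_mul_eq_mul_right ht (by rw [e]; ring)⟩

/-- reduction of the equation to `b² + 1 = y (y a²)²` -/
lemma reduce {x y z : ℤ} (hx : 0 < x) (hy : 0 < y) (hz : 0 < z) (h : y * (x ^ 3 - z ^ 2) = x) :
    ∃ a b : ℤ, 0 < a ∧ 0 < b ∧ b ^ 2 + 1 = y * (y * a ^ 2) ^ 2 := by
  obtain ⟨m, hm⟩ : ∃ m, m = x ^ 3 - z ^ 2 := ⟨_, rfl⟩
  rw [← hm] at h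
  have hm0 : 0 < m := (mul_pos_iff_of_pos_left hy).1 (h ▸ hx)
  have h1 : m * (y ^ 3 * m ^ 2 - 1) = z ^ 2 := by
    rw [← h] at hm
    linear_combination -hm
  have hc : IsCoprime m (y ^ 3 * m ^ 2 - 1) := ⟨y ^ 3 * m, -1, by ring⟩
  obtain ⟨a, ha⟩ := Int.sq_of_isCoprime hc h1
  have ha' : m = a ^ 2 := ha.resolve_right fun h2 => by nlinarith [sq_nonneg a]
  have ha0 : a ≠ 0 := by rintro rfl; simp at ha'; omega
  have h2 : a ^ 2 ∣ z ^ 2 := ⟨_, by rw [← h1, ha']⟩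
  obtain ⟨b, rfl⟩ := (Int.pow_dvd_pow_iff two_ne_zero).1 h2
  have hb0 : b ≠ 0 := by rintro rfl; simp at hz
  refine ⟨|a|, |b|, abs_pos.2 ha0, abs_pos.2 hb0, ?_⟩
  rw [sq_abs, sq_abs]
  refine mul_left_cancel₀ (pow_ne_zero 2 ha0) ?_
  rw [ha'] at h1
  linear_combination -h1

theorem main {y a b u v : ℤ} (hy : 0 < y) (ha : 0 < a) (hb : 0 < b)
    (h : b ^ 2 + 1 = y * (y * a ^ 2) ^ 2) (hu : 0 < u) (hv : 0 < v) (huv : u ^ 2 + 1 = y * v ^ 2)
    (hmin : ∀ X Y : ℤ, 0 < X → 0 < Y → X ^ 2 + 1 = y * Y ^ 2 → v ≤ Y) : ∃ c : ℤ, v = y * c ^ 2 := by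
  have hodd : Odd (y * a ^ 2) := by
    by_contra h0
    obtain ⟨w, hw⟩ := Int.not_odd_iff_even.1 h0
    rw [hw] at h
    have h4 : b ^ 2 + 1 = 4 * (y * w ^ 2) := by rw [h]; ring
    rcases Int.even_or_odd' b with ⟨r, rfl | rfl⟩
    · have : (2 * r) ^ 2 = 4 * r ^ 2 := by ring
      omega
    · have : (2 * r + 1) ^ 2 = 4 * (r ^ 2 + r) + 1 := by ring
      omega
  obtain ⟨k, hk, e⟩ := exists_pow hy hu hv huv hmin (y * a ^ 2).toNat b (y * a ^ 2)
    (Int.self_le_toNat _) hb (by positivity) h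
  lift y to ℕ using hy.le
  lift a to ℕ using ha.le
  lift u to ℕ using hu.le
  lift v to ℕ using hv.le
  rw [pow_eq huv] at e
  have e1 := congrArg Zsqrtd.im e
  dsimp only at e1
  have hodd' : Odd (y * a ^ 2) := by exact_mod_cast hodd
  obtain ⟨c, hc⟩ := key (y := y) (u := u) (v := v) (a := a) (k := k) (by exact_mod_cast hv)
    (by exact_mod_cast huv) (Nat.Odd.of_mul_left hodd')
    ((Nat.odd_pow_iff two_ne_zero).1 (Nat.Odd.of_mul_right hodd')) hk (by exact_mod_cast e1.symm)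
  exact ⟨c, by exact_mod_cast hc⟩

end Pool.Agent.Lib.MP_150066_nt
end
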